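import Pool.Agent.Helper56.RZ.GoalsC

/-!
# Project RZ2 (MP_f32c9c_an), packet HA: the splitting is Hölder
-/

set_option autoImplicit false

open Set Filter Topology MeasureTheory

open scoped ContDiff

namespace Pool.Agent.Helper96.RZ

open Pool.Agent.Helper56.RZ

theorem bnd {X : Type} [TopologicalSpace X] [CompactSpace X] (g : X → ℝ) (hg : Continuous g) :
    ∃ C : ℝ, 0 ≤ C ∧ ∀ x, g x ≤ C := by
  obtain ⟨C, hC⟩ := isCompact_univ.exists_bound_of_continuousOn (f := g) hg.continuousOn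
  refine ⟨max 0 C, le_max_left _ _, fun x => ?_⟩
  exact (le_abs_self _).trans ((hC x (mem_univ x)).trans (le_max_right _ _))

theorem ha : StmtRC → StmtHA := by
  intro hRC K M hM D S U hLin hP hq
  have : CompactSpace M := isCompact_iff_compactSpace.mp hM
  have hfc : Continuous D.f := D.f.continuous
  -- the functions p and q
  have hpc : Continuous (fun y : M => ‖D.B (D.f y) * U (D.f y)‖) :=
    ((D.contB.comp hfc).mul (hP.contG.comp hfc)).norm
  have hqc : Continuous (fun x : M => ‖D.A x * S x‖) := (D.contA.mul hP.contF).norm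
  obtain ⟨Rp, hRp0, hRp⟩ := bnd _ hpc
  obtain ⟨Rq, hRq0, hRq⟩ := bnd _ hqc
  obtain ⟨RA, hRA0, hRA⟩ := bnd (fun x : M => ‖D.A x‖) D.contA.norm
  obtain ⟨RS, hRS0, hRS⟩ := bnd (fun x : M => ‖S x‖) hP.contF.norm
  obtain ⟨RU, hRU0, hRU⟩ := bnd (fun x : M => ‖U x‖) hP.contG.norm
  obtain ⟨L, hL0, hL⟩ := hLin.lip
  obtain ⟨δ1, hδ1, hlin⟩ := hLin.lin 1 one_pos
  have huc := CompactSpace.uniformContinuous_of_continuous hpc
  rw [Metric.uniformContinuous_iff] at huc
  obtain ⟨δ2, hδ2, huc⟩ := huc (1 / (4 * (Rq + 1))) (by positivity)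
  set δ : ℝ := min 1 (min δ1 (δ2 / 2)) with hδd
  have hδ0 : 0 < δ := lt_min one_pos (lt_min hδ1 (by linarith))
  have hδle1 : δ ≤ 1 := min_le_left _ _
  have hδle2 : δ ≤ δ1 := (min_le_right _ _).trans (min_le_left _ _)
  have hδle3 : δ ≤ δ2 / 2 := (min_le_right _ _).trans (min_le_right _ _)
  set Λ : ℝ := RA + 2 with hΛd
  have hΛ2 : 2 ≤ Λ := by linarith
  have hΛ0 : 0 < Λ := by linarith
  have hlogΛ : 0 < Real.log Λ := Real.log_pos (by linarith)
  have hlog32 : 0 < Real.log (3 / 2) := Real.log_pos (by norm_num)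
  set α : ℝ := min 1 (Real.log (3 / 2) / Real.log Λ) with hαd
  have hα0 : 0 < α := lt_min one_pos (div_pos hlog32 hlogΛ)
  have hα1 : α ≤ 1 := min_le_left _ _
  have hΛα : Λ ^ α ≤ 3 / 2 := by
    rw [Real.rpow_def_of_pos hΛ0]
    have h1 : Real.log Λ * α ≤ Real.log (3 / 2) := by
      have h2 : α ≤ Real.log (3 / 2) / Real.log Λ := min_le_right _ _
      calc Real.log Λ * α ≤ Real.log Λ * (Real.log (3 / 2) / Real.log Λ) :=
            mul_le_mul_of_nonneg_left h2 hlogΛ.le
        _ = Real.log (3 / 2) := by field_simp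
    calc Real.exp (Real.log Λ * α) ≤ Real.exp (Real.log (3 / 2)) := Real.exp_le_exp.2 h1
      _ = 3 / 2 := Real.exp_log (by norm_num)
  set c2 : ℝ := Rp * L * RS with hc2
  have hc20 : 0 ≤ c2 := by positivity
  set C1 : ℝ := RU * RS with hC1
  have hC10 : 0 ≤ C1 := by positivity
  set κ : ℝ := max (4 * c2) (C1 * (Λ / δ) ^ α) with hκ
  have hκ0 : 0 ≤ κ := le_trans (by positivity) (le_max_left _ _)
  -- one step
  have hstep : ∀ x y : M, ‖(x : E K) - y‖ ≤ δ →
      ‖U y * S x‖ ≤ 1 / 2 * ‖U (D.f y) * S (D.f x)‖ + c2 * ‖(x : E K) - y‖ ∧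
      ‖((D.f x : M) : E K) - D.f y‖ ≤ Λ * ‖(x : E K) - y‖ := by
    intro x y hxy
    constructor
    · have h1 := hRC M K D S U hP x y
      have hd : dist y x < δ2 := by
        rw [dist_comm, Subtype.dist_eq, dist_eq_norm]
        linarith
      have h2 := huc hd
      rw [Real.dist_eq] at h2
      have h3 : ‖D.B (D.f y) * U (D.f y)‖ ≤ ‖D.B (D.f x) * U (D.f x)‖ + 1 / (4 * (Rq + 1)) := by
        have := (abs_lt.1 h2).2
        linarith
      have h4 : ‖D.B (D.f y) * U (D.f y)‖ * ‖D.A x * S x‖ ≤ 1 / 2 := by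
        calc ‖D.B (D.f y) * U (D.f y)‖ * ‖D.A x * S x‖
            ≤ (‖D.B (D.f x) * U (D.f x)‖ + 1 / (4 * (Rq + 1))) * ‖D.A x * S x‖ :=
              mul_le_mul_of_nonneg_right h3 (norm_nonneg _)
          _ = ‖D.B (D.f x) * U (D.f x)‖ * ‖D.A x * S x‖ +
              1 / (4 * (Rq + 1)) * ‖D.A x * S x‖ := by ring
          _ ≤ 1 / 4 + 1 / (4 * (Rq + 1)) * (Rq + 1) := by
              refine add_le_add (hq x) (mul_le_mul_of_nonneg_left ?_ (by positivity))
              have := hRq x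
              linarith
          _ = 1 / 2 := by
              have : Rq + 1 ≠ 0 := by positivity
              field_simp
              norm_num
      have h5 : ‖D.A y - D.A x‖ ≤ L * ‖(x : E K) - y‖ := by
        rw [norm_sub_rev]
        exact (hL x y).1
      calc ‖U y * S x‖ ≤ _ := h1
        _ = (‖D.B (D.f y) * U (D.f y)‖ * ‖D.A x * S x‖) * ‖U (D.f y) * S (D.f x)‖ +
            ‖D.B (D.f y) * U (D.f y)‖ * ‖D.A y - D.A x‖ * ‖S x‖ := by ring
        _ ≤ 1 / 2 * ‖U (D.f y) * S (D.f x)‖ + Rp * (L * ‖(x : E K) - y‖) * RS := by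
            refine add_le_add (mul_le_mul_of_nonneg_right h4 (norm_nonneg _)) ?_
            refine mul_le_mul (mul_le_mul (hRp y) h5 (norm_nonneg _) hRp0) (hRS x)
              (norm_nonneg _) (by positivity)
        _ = 1 / 2 * ‖U (D.f y) * S (D.f x)‖ + c2 * ‖(x : E K) - y‖ := by
            rw [hc2]
            ring
    · have h1 := hlin x y (by rw [norm_sub_rev]; linarith)
      rw [one_mul] at h1
      have h2 : ‖D.A x ((y : E K) - x)‖ ≤ RA * ‖(y : E K) - x‖ :=
        ((D.A x).le_opNorm _).trans (mul_le_mul_of_nonneg_right (hRA x) (norm_nonneg _))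
      have h3 : ‖((D.f y : M) : E K) - D.f x‖ ≤
          ‖((D.f y : M) : E K) - D.f x - D.A x ((y : E K) - x)‖ + ‖D.A x ((y : E K) - x)‖ := by
        have h4 := norm_add_le (((D.f y : M) : E K) - D.f x - D.A x ((y : E K) - x))
          (D.A x ((y : E K) - x))
        rwa [sub_add_cancel] at h4
      rw [norm_sub_rev, norm_sub_rev (x : E K)]
      have h5 : 0 ≤ ‖(y : E K) - x‖ := norm_nonneg _
      calc ‖((D.f y : M) : E K) - D.f x‖ ≤ ‖(y : E K) - x‖ + RA * ‖(y : E K) - x‖ := by linarith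
        _ ≤ Λ * ‖(y : E K) - x‖ := by
            rw [hΛd]
            linarith
  -- the claim
  have hclaim : ∀ n : ℕ, ∀ d : ℝ, 0 < d → δ < d * Λ ^ (n + 1) → ∀ x y : M,
      ‖(x : E K) - y‖ ≤ d → ‖U y * S x‖ ≤ κ * d ^ α := by
    have hbase : ∀ d : ℝ, 0 < d → δ < d * Λ → ∀ x y : M,
        ‖(x : E K) - y‖ ≤ d → ‖U y * S x‖ ≤ κ * d ^ α := by
      intro d hd hdΛ x y _
      have h1 : ‖U y * S x‖ ≤ C1 :=
        (norm_mul_le _ _).trans (mul_le_mul (hRU y) (hRS x) (norm_nonneg _) hRU0)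
      have h2 : (1 : ℝ) ≤ (Λ / δ) ^ α * d ^ α := by
        rw [← Real.mul_rpow (by positivity) hd.le]
        refine Real.one_le_rpow ?_ hα0.le
        rw [div_mul_eq_mul_div, le_div_iff₀ hδ0]
        nlinarith
      calc ‖U y * S x‖ ≤ C1 * 1 := by linarith
        _ ≤ C1 * ((Λ / δ) ^ α * d ^ α) := mul_le_mul_of_nonneg_left h2 hC10
        _ = (C1 * (Λ / δ) ^ α) * d ^ α := by ring
        _ ≤ κ * d ^ α := mul_le_mul_of_nonneg_right (le_max_right _ _)
            (Real.rpow_nonneg hd.le _)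
    intro n
    induction n with
    | zero =>
      intro d hd hdΛ
      rw [zero_add, pow_one] at hdΛ
      exact hbase d hd hdΛ
    | succ n ih =>
      intro d hd hdΛ x y hxy
      by_cases hb : δ < d * Λ
      · exact hbase d hd hb x y hxy
      · push Not at hb
        have hdδ : d ≤ δ := by nlinarith
        obtain ⟨h1, h2⟩ := hstep x y (hxy.trans hdδ)
        have h3 := ih (d * Λ) (by positivity) (by
          calc δ < d * Λ ^ (n + 1 + 1) := hdΛ
            _ = d * Λ * Λ ^ (n + 1) := by ring) (D.f x) (D.f y)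
            (h2.trans (by rw [mul_comm]; exact mul_le_mul_of_nonneg_right hxy hΛ0.le))
        have hdα : 0 ≤ d ^ α := Real.rpow_nonneg hd.le _
        have h4 : (d * Λ) ^ α ≤ d ^ α * (3 / 2) := by
          rw [Real.mul_rpow hd.le hΛ0.le]
          exact mul_le_mul_of_nonneg_left hΛα hdα
        have h5 : d ≤ d ^ α := by
          calc d = d ^ (1 : ℝ) := (Real.rpow_one d).symm
            _ ≤ d ^ α := Real.rpow_le_rpow_of_exponent_ge hd (hdδ.trans hδle1) hα1
        have h6 : c2 ≤ κ / 4 := by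
          have : 4 * c2 ≤ κ := le_max_left _ _
          linarith
        calc ‖U y * S x‖ ≤ 1 / 2 * ‖U (D.f y) * S (D.f x)‖ + c2 * ‖(x : E K) - y‖ := h1
          _ ≤ 1 / 2 * (κ * (d ^ α * (3 / 2))) + κ / 4 * d ^ α := by
              refine add_le_add ?_ ?_
              · refine mul_le_mul_of_nonneg_left (h3.trans ?_) (by norm_num)
                exact mul_le_mul_of_nonneg_left h4 hκ0
              · exact mul_le_mul h6 (hxy.trans h5) (norm_nonneg _) (by positivity)
          _ = κ * d ^ α := by ring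
  refine ⟨α, κ, hα0, hα1, hκ0, fun x y => ?_⟩
  rcases eq_or_ne x y with rfl | hne
  · rw [hP.GF, norm_zero]
    exact mul_nonneg hκ0 (Real.rpow_nonneg (norm_nonneg _) _)
  · have hd : 0 < ‖(x : E K) - y‖ := by
      rw [norm_pos_iff, sub_ne_zero]
      exact fun h => hne (Subtype.ext h)
    obtain ⟨n, hn⟩ := pow_unbounded_of_one_lt (δ / ‖(x : E K) - y‖) (by linarith : 1 < Λ)
    refine hclaim n _ hd ?_ x y le_rfl
    rw [div_lt_iff₀ hd] at hn
    calc δ < Λ ^ n * ‖(x : E K) - y‖ := hn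
      _ ≤ Λ ^ (n + 1) * ‖(x : E K) - y‖ :=
          mul_le_mul_of_nonneg_right (pow_le_pow_right₀ (by linarith) (Nat.le_succ n)) hd.le
      _ = ‖(x : E K) - y‖ * Λ ^ (n + 1) := by ring

end Pool.Agent.Helper96.RZ
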